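import Mathlib
import Pool.Agent.Y579.HR.Defs
import Pool.Agent.Y579.HR.Sane

/-!
# Halin's ray theorem does not imply `Σ¹₁-AC₀` over `RCA₀`

There is a model of `RCA₀` (and of arithmetical comprehension) in which both `IRT_UVS` and
`IRT_DVS` hold and which is not a model of `Σ¹₁-AC₀`. Hence `RCA₀ + P` does not prove `Σ¹₁-AC₀`
for `P = IRT_UVS` and for `P = IRT_DVS`.

The numbers of the model are an elementary extension of the natural numbers with all sets of a
countable class `Ar` closed under arithmetical definability and given by a hierarchy
`U 0, U 1, …`. It is generated by indiscernible-like elements `c_i` with `i < ω₁`; its cofinality is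
uncountable, and every number below the first generator `c` is of the form `f c` with `f` in the
class. The sets of the model are the sections of the standard stages of the hierarchy.

If a graph of the model has `k` disjoint rays for every number `k`, then by uncountable cofinality
the witnesses may be chosen at one stage of the hierarchy; the construction of infinitely many
disjoint rays (by a stable matching argument) is uniformly arithmetical in such witnesses, so it
can be transferred to the model. On the other hand choice fails for the statement that `X` is an
initial segment of the hierarchy which is long enough to define the number `n ≤ c` from `c`.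
-/

namespace Pool.Agent.Results.MP_7aa86b_lc.RaysWithoutChoice

open Pool.Agent.Helper617.RM Pool.Agent.Y579.HR

/-- The standard structure is a model of `Σ¹₁-AC₀`, and there is a model of `RCA₀` with
arithmetical comprehension which satisfies `IRT_UVS` and `IRT_DVS` but is not a model of
`Σ¹₁-AC₀`. -/
theorem result : IsModelSigma11AC0 fullModel ∧
    ∃ N : L2Structure.{0}, IsModelRCA0 N ∧ ArithComp N ∧ IRT_UVS N ∧ IRT_DVS N ∧
      ¬ IsModelSigma11AC0 N :=
  ⟨full_sigma11, NN, NN_rca, NN_aca, irt_uvs, irt_dvs, fun h => not_choice h.choice⟩

end Pool.Agent.Results.MP_7aa86b_lc.RaysWithoutChoice
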